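import Pool.Agent.H62.Sun18.Rows0
import Pool.Agent.H62.Sun18.Rows1
import Pool.Agent.H62.Sun18.Rows2
import Pool.Agent.H62.Sun18.Rows3
import Pool.Agent.H62.Sun18.Rows4
import Pool.Agent.H62.Sun18.Rows5

/-!
# Four squares with `x y (18 x² + 38 y² + 18 z²)` a square

For the triple `(18, 38, 18)` of Sun's list the assertion fails: `822335` has no representation
`x² + y² + z² + w²` with `x y (18 x² + 38 y² + 18 z²)` a square, and neither have the numbers
`822335 · 4 ^ k`.

Put `W = 9 x² + 19 y² + 9 z²`; the product is `2 x y W`.  Modulo `8` exactly one of `x, y, z, w` is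
even and it is `2` modulo `4`.  If it is `y` or `w` then `2 x y W` has an odd number of factors `2`.
Otherwise `8` divides `W`, and if `c` is the squarefree part of `x y` then `W = 8 c t²`.  The tables
and loops of `Pool.Agent.H62.Sun18` exclude all `x`, `y`, `t` by squares modulo five moduli.
-/

set_option autoImplicit false

namespace Pool.Agent.Results.MP_dfd283_nt.FailsAt822335

open Pool.Agent.H62.Sun18

/-- squares modulo `8` -/
theorem sq_mod (x : ℕ) : (x % 2 = 1 ∧ x * x % 8 = 1) ∨ (x % 4 = 2 ∧ x * x % 8 = 4) ∨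
    (x % 4 = 0 ∧ x * x % 8 = 0) := by
  have h1 : x * x % 8 = (x % 8) * (x % 8) % 8 := Nat.mul_mod _ _ _
  have h2 : x % 8 < 8 := Nat.mod_lt _ (by norm_num)
  have h3 : x % 8 % 2 = x % 2 := Nat.mod_mod_of_dvd x (by norm_num)
  have h4 : x % 8 % 4 = x % 4 := Nat.mod_mod_of_dvd x (by norm_num)
  rw [h1, ← h3, ← h4]
  generalize x % 8 = r at *
  interval_cases r <;> simp

theorem lt907 (x t : ℕ) (h : x * x + t = 822335) : x < 907 := by
  by_contra hc
  push Not at hc
  have : 907 * 907 ≤ x * x := Nat.mul_le_mul hc hc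
  omega

/-- squares modulo `16` -/
theorem sq16 (s : ℕ) : s * s % 16 ≠ 8 ∧ s * s % 4 ≠ 2 := by
  have h1 : s * s % 16 = (s % 16) * (s % 16) % 16 := Nat.mul_mod _ _ _
  have h2 : s % 16 < 16 := Nat.mod_lt _ (by norm_num)
  have h3 : s * s % 4 = s * s % 16 % 4 := (Nat.mod_mod_of_dvd _ (by norm_num)).symm
  rw [h3, h1]
  generalize s % 16 = r at *
  interval_cases r <;> simp

/-- the product of three odd numbers is odd -/
theorem odd3 (a b c : ℕ) (ha : a % 2 = 1) (hb : b % 2 = 1) (hc : c % 2 = 1) :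
    (a * b * c) % 2 = 1 := by
  rw [Nat.mul_mod, Nat.mul_mod a b, ha, hb, hc]

/-- if `2 (c g²) (8 V)` is a square and `c` is squarefree then `V = c t²` -/
theorem key (c g V s : ℕ) (hc : Squarefree c) (hg : 0 < g)
    (h : 2 * (c * g ^ 2) * (8 * V) = s * s) : ∃ t : ℕ, V = c * (t * t) := by
  have hc0 : 0 < c := Nat.pos_of_ne_zero hc.ne_zero
  have h1 : (4 * g) ^ 2 ∣ s ^ 2 := ⟨c * V, by rw [pow_two s, ← h]; ring⟩
  obtain ⟨r, rfl⟩ := (Nat.pow_dvd_pow_iff two_ne_zero).1 h1
  have h2 : c * V = r ^ 2 := by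
    have : (4 * g) ^ 2 * (c * V) = (4 * g) ^ 2 * r ^ 2 := by
      calc (4 * g) ^ 2 * (c * V) = 2 * (c * g ^ 2) * (8 * V) := by ring
        _ = (4 * g) ^ 2 * r ^ 2 := by rw [h]; ring
    exact Nat.eq_of_mul_eq_mul_left (by positivity) this
  have h3 : c ∣ r ^ 2 := ⟨V, h2.symm⟩
  obtain ⟨t, rfl⟩ := (hc.dvd_pow_iff_dvd two_ne_zero).1 h3
  refine ⟨t, Nat.eq_of_mul_eq_mul_left hc0 ?_⟩
  rw [h2]; ring

/-- squares modulo `3` -/
theorem sq3 (x : ℕ) : (x % 3 = 0 ∧ x * x % 3 = 0) ∨ (x % 3 ≠ 0 ∧ x * x % 3 = 1) := by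
  have h1 : x * x % 3 = (x % 3) * (x % 3) % 3 := Nat.mul_mod _ _ _
  have h2 : x % 3 < 3 := Nat.mod_lt _ (by norm_num)
  rw [h1]
  generalize x % 3 = r at *
  interval_cases r <;> simp

theorem app {l m : List (ℕ × ℕ × ℕ)} {p : ℕ × ℕ × ℕ → Bool} (h : l.all p = true)
    (h' : m.all p = true) : (l ++ m).all p = true := by
  rw [List.all_append, h, h']
  rfl

set_option maxRecDepth 10000 in
theorem allO : LO.all rowTest = true :=
    app (app (app (app (app (app (app (app (app (app (app (app (app (app (app (app (app (app (app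
    (app (app (app (app (app (app (app (app (app (app (app (app (app (app (app (app (app (app (app
    (app (app (app (app (app (app (app (app (app (app (app (app (app (app (app (app (app (app (app
    (app (app (app (app (app (app (app (app (app (app (app (app (app (app (app (app (app (app (app
    (app (app (app (app (app (app (app (app (app (app (app (app (app (app (app (app (app (app (app
    (app (app (app (app (app (app (app (app (app (app (app (app (app (app (app (app (app (app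
    rowsO0 rowsO1) rowsO2) rowsO3) rowsO4) rowsO5) rowsO6) rowsO7) rowsO8) rowsO9) rowsO10)
    rowsO11) rowsO12) rowsO13) rowsO14) rowsO15) rowsO16) rowsO17) rowsO18) rowsO19) rowsO20)
    rowsO21) rowsO22) rowsO23) rowsO24) rowsO25) rowsO26) rowsO27) rowsO28) rowsO29) rowsO30)
    rowsO31) rowsO32) rowsO33) rowsO34) rowsO35) rowsO36) rowsO37) rowsO38) rowsO39) rowsO40)
    rowsO41) rowsO42) rowsO43) rowsO44) rowsO45) rowsO46) rowsO47) rowsO48) rowsO49) rowsO50)
    rowsO51) rowsO52) rowsO53) rowsO54) rowsO55) rowsO56) rowsO57) rowsO58) rowsO59) rowsO60)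
    rowsO61) rowsO62) rowsO63) rowsO64) rowsO65) rowsO66) rowsO67) rowsO68) rowsO69) rowsO70)
    rowsO71) rowsO72) rowsO73) rowsO74) rowsO75) rowsO76) rowsO77) rowsO78) rowsO79) rowsO80)
    rowsO81) rowsO82) rowsO83) rowsO84) rowsO85) rowsO86) rowsO87) rowsO88) rowsO89) rowsO90)
    rowsO91) rowsO92) rowsO93) rowsO94) rowsO95) rowsO96) rowsO97) rowsO98) rowsO99) rowsO100)
    rowsO101) rowsO102) rowsO103) rowsO104) rowsO105) rowsO106) rowsO107) rowsO108) rowsO109)
    rowsO110) rowsO111) rowsO112) rowsO113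

set_option maxRecDepth 10000 in
theorem allE : H62.Sun18.LE.all rowTest = true :=
    app (app (app (app (app (app (app (app (app (app (app (app (app (app (app (app (app (app (app
    (app (app (app (app (app (app (app (app (app (app (app (app (app (app (app (app (app (app (app
    (app (app (app (app (app (app (app (app (app (app (app (app (app (app (app (app (app (app (app
    (app (app rowsE0 rowsE1) rowsE2) rowsE3) rowsE4) rowsE5) rowsE6) rowsE7) rowsE8) rowsE9)
    rowsE10) rowsE11) rowsE12) rowsE13) rowsE14) rowsE15) rowsE16) rowsE17) rowsE18) rowsE19)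
    rowsE20) rowsE21) rowsE22) rowsE23) rowsE24) rowsE25) rowsE26) rowsE27) rowsE28) rowsE29)
    rowsE30) rowsE31) rowsE32) rowsE33) rowsE34) rowsE35) rowsE36) rowsE37) rowsE38) rowsE39)
    rowsE40) rowsE41) rowsE42) rowsE43) rowsE44) rowsE45) rowsE46) rowsE47) rowsE48) rowsE49)
    rowsE50) rowsE51) rowsE52) rowsE53) rowsE54) rowsE55) rowsE56) rowsE57) rowsE58) rowsE59

/-- the entries of the tables pass the test -/
theorem rows (p q : ℕ × ℕ × ℕ) (hp : p ∈ LO ∨ p ∈ H62.Sun18.LE) (hq : q ∈ LO) :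
    test p.1 p.2.1 q.1 q.2.1 = true := by
  have h1 : rowTest p = true := by
    rcases hp with hp | hp
    · exact List.all_eq_true.1 allO p hp
    · exact List.all_eq_true.1 allE p hp
  have h2 : (q.1, q.2.1) ∈ LY := by
    rw [← LY_eq]
    exact List.mem_map.2 ⟨q, hq, rfl⟩
  exact List.all_eq_true.1 h1 _ h2

/-- the assertion fails for the triple `(18, 38, 18)` at `n = 822335` -/
theorem base : ¬ ∃ x y z w : ℕ, 822335 = x ^ 2 + y ^ 2 + z ^ 2 + w ^ 2 ∧
    IsSquare (x * y * (18 * x ^ 2 + 38 * y ^ 2 + 18 * z ^ 2)) := by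
  rintro ⟨x, y, z, w, hn, s, hs⟩
  have hn' : x * x + y * y + z * z + w * w = 822335 := by rw [hn]; ring
  have hx := lt907 x (y * y + z * z + w * w) (by omega)
  have hy := lt907 y (x * x + z * z + w * w) (by omega)
  have mx := sq_mod x
  have my := sq_mod y
  have mz := sq_mod z
  have mw := sq_mod w
  have hz0 : z ≠ 0 := by
    rintro rfl
    omega
  -- `v = 2 x y W`
  have hv : 2 * (x * y) * (9 * (x * x) + 19 * (y * y) + 9 * (z * z)) = s * s := by
    rw [← hs]; ring
  have hyodd : y % 2 = 1 := by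
    by_contra hc
    have hy2 : y % 4 = 2 := by omega
    obtain ⟨y', rfl⟩ : ∃ y', y = 2 * y' := ⟨y / 2, by omega⟩
    have hW : (9 * (x * x) + 19 * (2 * y' * (2 * y')) + 9 * (z * z)) % 4 = 2 := by omega
    obtain ⟨W', hW'⟩ : ∃ W', 9 * (x * x) + 19 * (2 * y' * (2 * y')) + 9 * (z * z) = 2 * W' :=
      ⟨(9 * (x * x) + 19 * (2 * y' * (2 * y')) + 9 * (z * z)) / 2, by omega⟩
    rw [hW'] at hv hW
    have h3 := odd3 x y' W' (by omega) (by omega) (by omega)
    have h4 : s * s = 8 * (x * y' * W') := by rw [← hv]; ring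
    have h5 := (sq16 s).1
    omega
  have hW8 : (9 * (x * x) + 19 * (y * y) + 9 * (z * z)) % 8 = 0 := by
    by_contra hc
    have hW : (9 * (x * x) + 19 * (y * y) + 9 * (z * z)) % 2 = 1 := by omega
    have hxo : x % 2 = 1 := by omega
    have h3 := odd3 x y _ hxo hyodd hW
    have h4 : s * s = 2 * (x * y * (9 * (x * x) + 19 * (y * y) + 9 * (z * z))) := by
      rw [← hv]; ring
    have h5 := (sq16 s).2
    omega
  have hxm : x % 2 = 1 ∨ x % 4 = 2 := by omega
  obtain ⟨a, h, haL, ha, hasq⟩ : ∃ a h : ℕ, ((x, a, h) ∈ LO ∨ (x, a, h) ∈ H62.Sun18.LE) ∧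
      x = a * (h * h) ∧ Squarefree a := by
    rcases hxm with h1 | h1
    · obtain ⟨a, h, h2, h3, h4⟩ := LO_spec x h1 hx
      exact ⟨a, h, Or.inl h2, h3, h4⟩
    · obtain ⟨a, h, h2, h3, h4⟩ := LE_spec x h1 hx
      exact ⟨a, h, Or.inr h2, h3, h4⟩
  obtain ⟨b, k, hbL, hb, hbsq⟩ := LO_spec y hyodd hy
  have ht : test x a y b = true := rows _ _ haL hbL
  have ht' := test_spec x a y b ht (by omega)
  obtain ⟨hc1, hc2⟩ := comb_spec a b hasq hbsq
  have ha0 : 0 < a := Nat.pos_of_ne_zero hasq.ne_zero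
  have hh : 0 < h := by
    rcases Nat.eq_zero_or_pos h with h0 | h0
    · exfalso
      rw [h0] at ha
      omega
    · exact h0
  have hk : 0 < k := by
    rcases Nat.eq_zero_or_pos k with h0 | h0
    · exfalso
      rw [h0] at hb
      omega
    · exact h0
  obtain ⟨V, hV⟩ : ∃ V, 9 * (x * x) + 19 * (y * y) + 9 * (z * z) = 8 * V :=
    ⟨(9 * (x * x) + 19 * (y * y) + 9 * (z * z)) / 8, by omega⟩
  have hxy : x * y = comb a b * (Nat.gcd a b * h * k) ^ 2 := by
    calc x * y = a * b * (h * k) ^ 2 := by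
          conv_lhs => rw [ha, hb]
          ring
      _ = _ := by rw [hc2]; ring
  have hg : 0 < Nat.gcd a b * h * k := by
    have g2 : 0 < Nat.gcd a b := Nat.gcd_pos_of_pos_left _ ha0
    positivity
  rw [hV, hxy] at hv
  obtain ⟨t, htV⟩ := key _ _ _ _ hc1 hg hv
  generalize comb a b = c at *
  have hA : 822335 - (x * x + y * y) = z * z + w * w := by omega
  have m3y := sq3 y
  have m3t := sq3 t
  have hW1 : 8 * (c * (t * t)) = 9 * (x * x) + 19 * (y * y) + 9 * (z * z) := by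
    rw [← htV]; exact hV.symm
  rcases ht' with ⟨h1, h2⟩ | h1
  · -- modulo `3`
    have h3 : 8 * (c * (t * t)) % 3 = 1 := by
      rw [hW1]; omega
    have h4 : 8 * (c * (t * t)) % 3 = 2 * ((c % 3) * (t * t % 3)) % 3 := by
      rw [Nat.mul_mod, Nat.mul_mod c (t * t)]
      simp [Nat.mul_mod]
    rw [h4] at h3
    have h5 : c % 3 < 3 := Nat.mod_lt _ (by norm_num)
    have h6 : t * t % 3 = 0 ∨ t * t % 3 = 1 := by omega
    rcases h6 with h6 | h6
    · rw [h6] at h3; omega
    · rw [h6] at h3; omega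
  · by_cases h3 : y % 3 = 0
    · rw [if_pos h3] at h1
      -- `3` divides `t`
      have h9 : 9 ∣ c * (t * t) := by
        obtain ⟨y', rfl⟩ : ∃ y', y = 3 * y' := ⟨y / 3, by omega⟩
        have e : 8 * (c * (t * t)) = 9 * (x * x + 19 * (y' * y') + z * z) := by
          rw [hW1]; ring
        have : 9 ∣ 8 * (c * (t * t)) := ⟨_, e⟩
        exact (Nat.Coprime.dvd_mul_left (by norm_num : Nat.Coprime 9 8)).1 this
      have h3t : 3 ∣ t := by
        by_contra hcon
        have cop : Nat.Coprime 9 (t * t) := by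
          have h3c : Nat.Coprime 3 t := (Nat.Prime.coprime_iff_not_dvd Nat.prime_three).2 hcon
          have : Nat.Coprime (3 * 3) (t * t) :=
            Nat.Coprime.mul_left (Nat.Coprime.mul_right h3c h3c) (Nat.Coprime.mul_right h3c h3c)
          exact this
        have h9c : 3 * 3 ∣ c := (Nat.Coprime.dvd_mul_right cop).1 h9
        have := hc1 3 h9c
        exact absurd this (by decide)
      obtain ⟨t', rfl⟩ := h3t
      refine start_spec _ _ _ _ rfl h1 t' z w ?_ hA hz0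
      rw [← hW1]; ring
    · rw [if_neg h3] at h1
      refine start_spec _ _ _ _ rfl h1 t z w ?_ hA hz0
      rw [← hW1]; ring

/-- if the assertion fails at `n` for the triple `(18, 38, 18)` then it fails at `4 n` -/
theorem descent (n : ℕ) (hn : ¬ ∃ x y z w : ℕ, n = x ^ 2 + y ^ 2 + z ^ 2 + w ^ 2 ∧
    IsSquare (x * y * (18 * x ^ 2 + 38 * y ^ 2 + 18 * z ^ 2))) :
    ¬ ∃ x y z w : ℕ, 4 * n = x ^ 2 + y ^ 2 + z ^ 2 + w ^ 2 ∧
      IsSquare (x * y * (18 * x ^ 2 + 38 * y ^ 2 + 18 * z ^ 2)) := by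
  rintro ⟨x, y, z, w, h, s, hs⟩
  have h' : x * x + y * y + z * z + w * w = 4 * n := by rw [h]; ring
  have mx := sq_mod x
  have my := sq_mod y
  have mz := sq_mod z
  have mw := sq_mod w
  have hcase : (x % 2 = 1 ∧ y % 2 = 1 ∧ z % 2 = 1 ∧ w % 2 = 1) ∨
      (x % 2 = 0 ∧ y % 2 = 0 ∧ z % 2 = 0 ∧ w % 2 = 0) := by omega
  rcases hcase with ⟨hx, hy, hz, -⟩ | ⟨hx, hy, hz, hw⟩
  · have hW : (9 * (x * x) + 19 * (y * y) + 9 * (z * z)) % 2 = 1 := by omega
    have h3 := odd3 x y _ hx hy hW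
    have h4 : s * s = 2 * (x * y * (9 * (x * x) + 19 * (y * y) + 9 * (z * z))) := by
      rw [← hs]; ring
    have h5 := (sq16 s).2
    omega
  · obtain ⟨x', rfl⟩ : ∃ x', x = 2 * x' := ⟨x / 2, by omega⟩
    obtain ⟨y', rfl⟩ : ∃ y', y = 2 * y' := ⟨y / 2, by omega⟩
    obtain ⟨z', rfl⟩ : ∃ z', z = 2 * z' := ⟨z / 2, by omega⟩
    obtain ⟨w', rfl⟩ : ∃ w', w = 2 * w' := ⟨w / 2, by omega⟩
    have h1 : 4 ^ 2 ∣ s ^ 2 :=
      ⟨x' * y' * (18 * x' ^ 2 + 38 * y' ^ 2 + 18 * z' ^ 2), by rw [pow_two s, ← hs]; ring⟩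
    obtain ⟨r, rfl⟩ := (Nat.pow_dvd_pow_iff two_ne_zero).1 h1
    refine hn ⟨x', y', z', w', ?_, r, ?_⟩
    · have : 4 * n = 4 * (x' ^ 2 + y' ^ 2 + z' ^ 2 + w' ^ 2) := by rw [h]; ring
      omega
    · have : 16 * (x' * y' * (18 * x' ^ 2 + 38 * y' ^ 2 + 18 * z' ^ 2)) = 16 * (r * r) := by
        calc 16 * (x' * y' * (18 * x' ^ 2 + 38 * y' ^ 2 + 18 * z' ^ 2))
            = 2 * x' * (2 * y') * (18 * (2 * x') ^ 2 + 38 * (2 * y') ^ 2 + 18 * (2 * z') ^ 2) := by
              ring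
          _ = 16 * (r * r) := by rw [hs]; ring
      omega

/-- **Sun's assertion fails for the triple `(18, 38, 18)`**, at each of the numbers
`n = 822335 · 4 ^ k`. -/
theorem result (k : ℕ) : ¬ ∃ x y z w : ℕ, 822335 * 4 ^ k = x ^ 2 + y ^ 2 + z ^ 2 + w ^ 2 ∧
    IsSquare (x * y * (18 * x ^ 2 + 38 * y ^ 2 + 18 * z ^ 2)) := by
  induction k with
  | zero => simpa using base
  | succ k ih =>
    have h := descent _ ih
    have e : 4 * (822335 * 4 ^ k) = 822335 * 4 ^ (k + 1) := by ring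
    rw [e] at h
    exact h

end Pool.Agent.Results.MP_dfd283_nt.FailsAt822335
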